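import Pool.Agent.Helper79.GT.St2

/-!
# Project GT (MP_c2d095_lc), module WIN: the differences stay in the window
-/

set_option autoImplicit false

namespace Pool.Agent.Helper21.GT

open Pool.Agent.Helper79.GT Pool.Agent.Helper79.GS Pool.Agent.Helper19.SK

private lemma key_ineq (R N B k : ℕ) (hB : (2 * R + 1) * N ≤ B) (hk : k ≤ R) (x p : ℤ)
    (h1 : |x - p| ≤ 6 * (k : ℤ) * N) (h2 : |p| ≤ 2 * N) : |x| ≤ 4 * (B : ℤ) := by
  have h3 : ((2 * R + 1) * N : ℤ) ≤ B := by exact_mod_cast hB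
  have h4 : (k : ℤ) * N ≤ (R : ℤ) * N := by
    have h5 : (k : ℤ) ≤ R := by exact_mod_cast hk
    exact mul_le_mul_of_nonneg_right h5 (Int.natCast_nonneg N)
  have h6 : (0 : ℤ) ≤ (R : ℤ) * N := by positivity
  have h7 : (0 : ℤ) ≤ N := Int.natCast_nonneg N
  rw [abs_le] at h1 h2 ⊢
  constructor <;> nlinarith [h1.1, h1.2, h2.1, h2.2]

/-- WIN. -/
theorem hWIN (hWPR : StWPR) (hWDF : StWDF) : Pool.Agent.Helper79.GT.StWIN := by
  intro P A D pt g N B R d₀ hK hB b₀ hbd a k hw c b' hu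
  have hp := (hWPR P A D pt g N (2 * B + 1) B d₀ hK (b₀, ⟨B, by omega⟩) k).1 a hw
  have hd := hWDF P A D pt g N (2 * B + 1) B d₀ hK (b₀, ⟨B, by omega⟩) a k hw
  simp only at hp hd
  have hmain : |4 * (((a.2.val : ℤ) + A.cp c a.1 b') - B)| ≤ 4 * (B : ℤ) := by
    have hpp : |pt b' - pt b₀| ≤ 2 * (N : ℤ) := by
      have e1 := abs_le.1 (hK.bp b')
      have e2 := abs_le.1 (hK.bp b₀)
      rw [abs_le]
      constructor <;> linarith [e1.1, e1.2, e2.1, e2.2]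
    by_cases hr : und A D (!c) b' a.1
    · have hkR : k ≤ R := hbd k a.1 hp
      have h4 : 4 * A.cp c a.1 b' = pt b' - pt a.1 := by
        cases c with
        | true =>
          obtain ⟨e1, e2, -, -⟩ := hK.ko a.1 b' hu.1 hr.1
          rw [e1, e2]
          ring
        | false =>
          obtain ⟨e1, -, e3, -⟩ := hK.ko b' a.1 hr.1 hu.1
          rw [e1, e3]
          ring
      refine key_ineq R N B k hB hkR _ (pt b' - pt b₀) ?_ hpp
      have e : 4 * (((a.2.val : ℤ) + A.cp c a.1 b') - B) - (pt b' - pt b₀) =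
          4 * ((a.2.val : ℤ) - (B : ℕ)) - (pt a.1 - pt b₀) := by
        linear_combination h4
      rw [e]
      exact hd
    · have hkR : k + 1 ≤ R := hbd (k + 1) b' (Rch.irr k c a.1 b' hp hu hr)
      refine key_ineq R N B (k + 1) hB hkR _ (pt b' - pt b₀) ?_ hpp
      have e1 := abs_le.1 (hK.bp b')
      have e2 := abs_le.1 (hK.bp a.1)
      have e3 := abs_le.1 (hK.bc c a.1 b' hu.1)
      have e4 := abs_le.1 hd
      push_cast
      rw [abs_le]
      constructor <;> linarith [e1.1, e1.2, e2.1, e2.2, e3.1, e3.2, e4.1, e4.2]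
  have h0 := abs_le.1 hmain
  have hlo : 0 ≤ (a.2.val : ℤ) + A.cp c a.1 b' := by linarith [h0.1]
  have hhi : (a.2.val : ℤ) + A.cp c a.1 b' ≤ 2 * (B : ℤ) := by linarith [h0.2]
  obtain ⟨j, hj⟩ := Int.eq_ofNat_of_zero_le hlo
  have hjB : j < 2 * B + 1 := by
    rw [hj] at hhi
    omega
  have hjj : (((⟨j, hjB⟩ : Fin (2 * B + 1)).val : ℕ) : ℤ) = (a.2.val : ℤ) + A.cp c a.1 b' := hj.symm
  have hmv : (wA A D g (2 * B + 1) B d₀).mv c (Sum.inl a)
      (Sum.inl (b', (⟨j, hjB⟩ : Fin (2 * B + 1)))) := ⟨hu, hjj⟩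
  refine ⟨⟨j, hjB⟩, hjj, hmv, ?_⟩
  by_cases hr : (wA A D g (2 * B + 1) B d₀).mv (!c)
      (Sum.inl (b', (⟨j, hjB⟩ : Fin (2 * B + 1)))) (Sum.inl a)
  · exact ⟨k, Nat.le_succ k, Rch.rev k c _ _ hw hmv hr, 0, Nat.zero_le 1,
      Rch.rev 0 c _ _ Rch.refl hmv hr⟩
  · exact ⟨k + 1, le_refl _, Rch.irr k c _ _ hw hmv hr, 1, le_refl 1,
      Rch.irr 0 c _ _ Rch.refl hmv hr⟩

end Pool.Agent.Helper21.GT
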